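import Pool.Agent.Y519.UN.Last

/-!
# Unicorns on the whole plane with arbitrarily small Cartan torsion

For every `δ > 0` there is a smooth Finsler metric `F` on the whole plane, invariant under the
translations of the first coordinate (so it also lives on every cylinder), such that

* the Landsberg curvature vanishes identically,
* the norm of the Cartan torsion is at most `δ`:
  `F(x,y) |C_y(u,v,w)| ≤ δ |u|_y |v|_y |w|_y`,
* the Berwald curvature does not vanish at any point of the plane.

So Landsberg metrics need not be Berwald metrics even if they are arbitrarily close to Riemannian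
metrics, and the set where such a metric is Berwald may be empty.
-/

set_option autoImplicit false

namespace Pool.Agent.Results.MP_9f67e3_gt.PlaneUnicornSmallTorsion

open Pool.Agent.Y519.UN

theorem result :
    ∀ δ : ℝ, 0 < δ → ∃ F : (Fin 2 → ℝ) → (Fin 2 → ℝ) → ℝ, IsFinsler F ∧
      (∀ x x' y, x 1 = x' 1 → F x y = F x' y) ∧
      (∀ x y, y ≠ 0 → ∀ j k l, lan F x y j k l = 0) ∧
      (∀ x y, y ≠ 0 → ∀ u v w : Fin 2 → ℝ,
        F x y * |∑ i, ∑ j, ∑ k, cart F x y i j k * u i * v j * w k| ≤
          δ * (√(nsq F x y u) * √(nsq F x y v) * √(nsq F x y w))) ∧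
      ∀ x, ∃ y, y ≠ 0 ∧ ∃ i, ber F x y i i i i ≠ 0 :=
  main

end Pool.Agent.Results.MP_9f67e3_gt.PlaneUnicornSmallTorsion
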